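import Pool.Agent.H522R3.Spl.Fin

/-!
# Splitting methods of every order whose coefficients all have positive real part
-/

open Filter Topology
open scoped ContDiff

namespace Pool.Agent.Results.MP_18dddc_an.PositiveRealPart

/-- `ℂ^d` with its Euclidean norm. -/
abbrev Cd (d : ℕ) : Type := EuclideanSpace ℂ (Fin d)

/-- `y = e^{τ f} x`: `y` is the value at `s = 1` of a solution on `[0, 1]` of `y' = τ f(y)` that
starts at `x`. -/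
def IsFlow {d : ℕ} (f : Cd d → Cd d) (τ : ℂ) (x y : Cd d) : Prop :=
  ∃ γ : ℝ → Cd d, γ 0 = x ∧ γ 1 = y ∧
    ∀ s ∈ Set.Icc (0:ℝ) 1, HasDerivWithinAt γ (τ • f (γ s)) (Set.Icc 0 1) s

/-- For `l = [(α₁, β₁), …, (α_k, β_k)]`:
`y = e^{α₁ T f₀} e^{β₁ T f₁} ⋯ e^{α_k T f₀} e^{β_k T f₁} x`. -/
def IsSplitFlow {d : ℕ} (f₀ f₁ : Cd d → Cd d) (T : ℝ) : List (ℂ × ℂ) → Cd d → Cd d → Prop
  | [], x, y => y = x
  | p :: l, x, y => ∃ z w, IsSplitFlow f₀ f₁ T l x z ∧ IsFlow f₁ (p.2 * (T : ℂ)) z w ∧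
      IsFlow f₀ (p.1 * (T : ℂ)) w y

/-- `l = [(α₁, β₁), …, (α_k, β_k)]`, `k ≥ 1`, is an `(𝔸, 𝔹)` splitting method of order (at least)
`N`: all `α_j ∈ 𝔸`, all `β_j ∈ 𝔹`, and for all `d ≥ 1`, all holomorphic vector fields `f₀`, `f₁` on
`ℂ^d` and all `x₀` there is `C` such that for all sufficiently small `T > 0` the points
`y = e^{T (f₀ + f₁)} x₀` and `z = e^{α₁ T f₀} e^{β₁ T f₁} ⋯ e^{α_k T f₀} e^{β_k T f₁} x₀` exist, are
unique, and satisfy `|y - z| ≤ C T^(N+1)`. -/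
def IsSplittingMethod (𝔸 𝔹 : Set ℂ) (N : ℕ) (l : List (ℂ × ℂ)) : Prop :=
  l ≠ [] ∧ (∀ p ∈ l, p.1 ∈ 𝔸 ∧ p.2 ∈ 𝔹) ∧
  ∀ d : ℕ, 1 ≤ d → ∀ f₀ f₁ : Cd d → Cd d, Differentiable ℂ f₀ → Differentiable ℂ f₁ →
    ∀ x₀ : Cd d, ∃ C : ℝ, ∀ᶠ T : ℝ in 𝓝[>] 0, ∃ y z : Cd d,
      (∀ y', IsFlow (f₀ + f₁) (T : ℂ) x₀ y' ↔ y' = y) ∧
      (∀ z', IsSplitFlow f₀ f₁ T l x₀ z' ↔ z' = z) ∧ ‖y - z‖ ≤ C * T ^ (N + 1)

theorem isSplitFlow_iff {d : ℕ} (f₀ f₁ : Cd d → Cd d) (T : ℝ) :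
    ∀ (l : List (ℂ × ℂ)) (x y : Cd d),
      IsSplitFlow f₀ f₁ T l x y ↔ H522R3.Spl.IsSplit f₀ f₁ T l x y
  | [], _, _ => Iff.rfl
  | p :: l, x, y => by
    constructor
    · rintro ⟨z, w, h1, h2, h3⟩
      exact ⟨z, w, (isSplitFlow_iff f₀ f₁ T l x z).1 h1, h2, h3⟩
    · rintro ⟨z, w, h1, h2, h3⟩
      exact ⟨z, w, (isSplitFlow_iff f₀ f₁ T l x z).2 h1, h2, h3⟩

theorem smooth_of_holomorphic {d : ℕ} {f : Cd d → Cd d} (hf : Differentiable ℂ f) :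
    ContDiff ℂ ∞ f := by
  rw [contDiff_infty]
  intro n
  have := Pool.Agent.Helper540.contDiffOn_of_differentiableOn isOpen_univ
    hf.differentiableOn n
  exact contDiffOn_univ.1 this

/-- For every `N ≥ 1` there is a splitting method of order `N` all of whose coefficients have
(strictly) positive real part. -/
theorem result : ∀ N : ℕ, 1 ≤ N → ∃ l : List (ℂ × ℂ),
    IsSplittingMethod {z : ℂ | 0 < z.re} {z : ℂ | 0 < z.re} N l := by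
  intro N _
  obtain ⟨l, hne, hpos, hl⟩ := H522R3.Spl.exists_word N
  refine ⟨l.reverse, by simpa using hne, ?_, ?_⟩
  · intro p hp
    exact hpos p (List.mem_reverse.1 hp)
  · intro d _ f₀ f₁ h₀ h₁ x₀
    obtain ⟨C, hC⟩ := H522R3.Spl.main (smooth_of_holomorphic h₀) (smooth_of_holomorphic h₁) x₀
      (N := N) (l := l.reverse) (by simpa using hl)
    refine ⟨C, hC.mono ?_⟩
    rintro T ⟨y, z, h1, h2, h3⟩
    refine ⟨y, z, h1, fun z' => ?_, h3⟩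
    rw [isSplitFlow_iff]
    exact h2 z'

end Pool.Agent.Results.MP_18dddc_an.PositiveRealPart
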